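import Mathlib
import Pool.Agent.TH834.Prim
set_option autoImplicit false

/-!
A character `θ` for `p = 3`, `N = 29332 = 4 * 7333`, for which the symbols (cup products) of units of
`ℤ[ζ_{3N}, 1/(3N)]` do not generate the `θ`-part of `K_2 (ℤ[ζ_{3N}, 1/(3N)]) ⊗ ℤ_3`.

The proof. The character is `θ = χ ϑ` with `χ` the even quadratic character of conductor 12 and `ϑ` a
cubic character of conductor 7333. Modulo the maximal ideal of `ℤ_3[θ]` it is congruent to `χ`, so
the `χ`-component `psi` of the tame symbols above 7333, followed by the cubic residue symbol, is a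
linear form on the `θ`-part. It does not vanish (`psi_elt_smul`). It vanishes on all symbols of units
(`psi_symb`): for this the units of the field of degree 12 fixed by the cubes of the inertia group
above 7333 are determined up to index prime to 3, by Dirichlet's unit theorem, an explicit unit
written with cubic Gauss sums (`exists_u`), and the primes `58 + 63 i` and `89 + 14 √3` above 7333.
-/

namespace Pool.Agent.Results.MP_2b7bfc_nt.SymbolsNotSurjective

open NumberField Pool.Agent.TH834

/-- For `p = 3`, `N = 29332` and `M = 3 N` there is a primitive even character `θ` of `(ℤ/M)ˣ` that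
satisfies the hypothesis `θω⁻¹|_{(ℤ/N)ˣ}(3) ≠ 1` such that the symbols of units of `ℤ[ζ_M, 1/M]` do
not generate the `θ`-part of `K_2 (ℤ[ζ_M, 1/M]) ⊗ ℤ_3`. -/
theorem result : ∃ θ : DirichletCharacter (AlgebraicClosure ℚ_[3]) (29332 * 3),
    θ.IsPrimitive ∧ θ.Even ∧
    (∃ b : (ZMod (29332 * 3))ˣ, ((b : ZMod (29332 * 3)).val : ZMod 29332) = 3 ∧
      ((b : ZMod (29332 * 3)).val : ZMod 3) = 1 ∧ θ (b : ZMod (29332 * 3)) ≠ 1) ∧
    ∀ (E : Type) [Field E] [NumberField E] [IsCyclotomicExtension {29332 * 3} ℚ E],
      ¬ SymbolsGenerate θ E :=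
  ⟨th, th_primitive, th_even, ⟨bq, by decide, by decide, th_bq⟩,
    fun E _ _ h => @not_generate E _ _ h⟩

end Pool.Agent.Results.MP_2b7bfc_nt.SymbolsNotSurjective
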